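import Pool.Agent.H837.UF.Defs

/-!
# The group of zero-cycles modulo rational equivalence over an arbitrary field
-/

set_option autoImplicit false

namespace Pool.Agent.H837.QB

open MvPolynomial Pool.Agent.H837.UF

variable {K : Type} [Field K] {τ : Type} [Fintype τ]

/-- The effective zero-cycles `∑ [x i]` and `∑ [y i]` on the projective variety with the cone `V` are
the values at `0` and `∞` of a morphism from the projective line to the symmetric product: there is a
polynomial `F` in one variable with coefficients forms whose values are multiples of Chow forms of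
effective zero-cycles on the variety, with constant coefficient the form of `∑ [x i]` and leading
coefficient the form of `∑ [y i]`, up to nonzero factors. -/
def Step (V : Set (τ → K)) (n : ℕ) (x y : Fin n → V) : Prop :=
  ∃ F : Polynomial (MvPolynomial τ K),
    (∃ c : K, c ≠ 0 ∧ F.coeff 0 = C c * chow fun i => (x i : τ → K)) ∧
    (∃ c : K, c ≠ 0 ∧ F.leadingCoeff = C c * chow fun i => (y i : τ → K)) ∧
    ∀ s : K, ∃ (c : K) (z : Fin n → V), F.eval (C s) = C c * chow fun i => (z i : τ → K)

/-- The group of the zero-cycles on the projective variety with the cone `V` modulo rational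
equivalence. (Vectors `v` and `c v` are coordinates of the same point; their classes are equal, because
constant families are allowed in `Step`.) -/
abbrev CH (V : Set (τ → K)) : Type :=
  FreeAbelianGroup V ⧸ AddSubgroup.closure {e : FreeAbelianGroup V |
    ∃ (n : ℕ) (x y : Fin n → V), Step V n x y ∧
      e = ∑ i, FreeAbelianGroup.of (x i) - ∑ i, FreeAbelianGroup.of (y i)}

/-- The class of the effective zero-cycle `∑ [x i]`. -/
def cls {V : Set (τ → K)} {n : ℕ} (x : Fin n → V) : CH V :=
  QuotientAddGroup.mk (∑ i, FreeAbelianGroup.of (x i))

/-- The vectors `x i` and `y i` are coordinates of points of the projective variety with the cone `V`,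
and the zero-cycles `∑ [x i]` and `∑ [y i]` are rationally equivalent. -/
def Same (V : Set (τ → K)) {n : ℕ} (x y : Fin n → τ → K) : Prop :=
  ∃ (hx : ∀ i, x i ∈ V) (hy : ∀ i, y i ∈ V), cls (fun i => (⟨x i, hx i⟩ : V)) = cls fun i => ⟨y i, hy i⟩

/-- The vectors obtained by applying the homomorphism `φ` to the coordinates. -/
def image {R : Type} [CommRing R] {n : ℕ} {σ : Type} (φ : R →+* K) (x : Fin n → σ → R) : Fin n → σ → K :=
  fun i a => φ (x i a)

end Pool.Agent.H837.QB
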