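import Pool.Agent.H837.QB.Main
import Pool.Agent.H837.UF.Alt2
import Pool.Graph.R_pool_sql_team_seeded_1acbe0a2.Y148.OD.Facts

/-!
# Families of zero-cycles over the algebraic numbers: complexities
-/

set_option autoImplicit false

namespace Pool.Agent.H837.QB

open MvPolynomial Pool.Agent.H837.UF
open Filter hiding map

variable {R : Type} [CommRing R] {r q n : ℕ}

section Defs

variable {K : Type} [Field K]

/-- The points with coordinates in `K` of the affine variety which is given by the equations `P = 0` for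
`P` in `E`, after applying `φ` to the coefficients. -/
def Par (E : Finset (MvPolynomial (Fin q) R)) (φ : R →+* K) : Set (Fin q → K) :=
  {t | ∀ P ∈ E, eval t (map φ P) = 0}

/-- The values at `t` of the polynomials `f i a`, after applying `φ` to the coefficients. -/
noncomputable def val (φ : R →+* K) (f : Fin (n + 1) → Fin (r + 1) → MvPolynomial (Fin q) R)
    (t : Fin q → K) : Fin (n + 1) → Fin (r + 1) → K :=
  fun i a => eval t (map φ (f i a))

end Defs

/-- A family of pairs of effective zero-cycles of degree `n + 1` on a projective variety. -/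
structure Family (R : Type) [CommRing R] (r q n : ℕ) where
  /-- the equations of the projective variety -/
  S : Finset (MvPolynomial (Fin (r + 1)) R)
  /-- the equations of the affine variety of the parameters -/
  E : Finset (MvPolynomial (Fin q) R)
  /-- the homogeneous coordinates of the points of the first zero-cycle -/
  f : Fin (n + 1) → Fin (r + 1) → MvPolynomial (Fin q) R
  /-- the homogeneous coordinates of the points of the second zero-cycle -/
  g : Fin (n + 1) → Fin (r + 1) → MvPolynomial (Fin q) R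

variable (Φ : Family R r q n)

/-- the cycles have complexity at most `c` -/
def Bdd {K : Type} [Field K] (φ : R →+* K) (c : ℕ) : Prop :=
  ∀ t ∈ Par Φ.E φ, RatEq (Cone Φ.S φ) c (val φ Φ.f t) (val φ Φ.g t)

/-- the families are families of points of the variety -/
def Good {K : Type} [Field K] (φ : R →+* K) : Prop :=
  ∀ t ∈ Par Φ.E φ, ∀ i, val φ Φ.f t i ∈ Cone Φ.S φ ∧ val φ Φ.g t i ∈ Cone Φ.S φ

section Los

variable {J : Type} {U : Ultrafilter J} {K : J → Type} [∀ j, Field (K j)] {L : Type} [Field L]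
  {π : (∀ j, K j) →+* L}

theorem par_lim (hπ : IsUltra U π) (E : Finset (MvPolynomial (Fin q) R)) (φ : R →+* (∀ j, K j))
    (t : Fin q → ∀ j, K j) : (fun a => π (t a)) ∈ Par E (π.comp φ) ↔
      ∀ᶠ j in U, (fun a => t a j) ∈ Par E ((Pi.evalRingHom K j).comp φ) := by
  show (∀ P ∈ E, eval (fun a => π (t a)) (map (π.comp φ) P) = 0) ↔
    ∀ᶠ j in (U : Filter J), ∀ P ∈ E,
      eval (fun a => t a j) (map ((Pi.evalRingHom K j).comp φ) P) = 0
  rw [Finset.eventually_all]
  exact forall₂_congr fun P _ => eval_lim hπ P φ t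

theorem val_pi (φ : R →+* (∀ j, K j)) (f : Fin (n + 1) → Fin (r + 1) → MvPolynomial (Fin q) R)
    (t : Fin q → ∀ j, K j) : val (π.comp φ) f (fun a => π (t a)) =
      fun i b => π (eval t (map φ (f i b))) := by
  funext i b
  show eval _ (map _ _) = _
  rw [eval_map, eval_map]
  exact (eval₂_comp_left _ _ _ _).symm

theorem val_apply (φ : R →+* (∀ j, K j)) (f : Fin (n + 1) → Fin (r + 1) → MvPolynomial (Fin q) R)
    (t : Fin q → ∀ j, K j) (j : J) : val ((Pi.evalRingHom K j).comp φ) f (fun a => t a j) =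
      fun i b => (eval t (map φ (f i b)) : ∀ j, K j) j := by
  funext i b
  show eval _ (map _ _) = _
  have h2 : Pi.evalRingHom K j (eval t (map φ (f i b))) =
      eval₂ ((Pi.evalRingHom K j).comp φ) (fun a => t a j) (f i b) := by
    rw [eval_map]
    exact eval₂_comp_left _ _ _ _
  rw [eval_map]
  exact h2.symm

theorem rat_lim (hπ : IsUltra U π) (φ : R →+* (∀ j, K j)) (c : ℕ) (t : Fin q → ∀ j, K j) :
    RatEq (Cone Φ.S (π.comp φ)) c (val (π.comp φ) Φ.f fun a => π (t a))
      (val (π.comp φ) Φ.g fun a => π (t a)) ↔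
      ∀ᶠ j in U, RatEq (Cone Φ.S ((Pi.evalRingHom K j).comp φ)) c
        (val ((Pi.evalRingHom K j).comp φ) Φ.f fun a => t a j)
        (val ((Pi.evalRingHom K j).comp φ) Φ.g fun a => t a j) := by
  rw [val_pi, val_pi, ratEq_iff hπ (cone_lim hπ Φ.S φ)]
  refine eventually_congr (Eventually.of_forall fun j => ?_)
  rw [val_apply, val_apply]

/-- **The theorem of Łoś for uniform properties of the points of the parameter variety.** -/
theorem forall_lim (hπ : IsUltra U π) (E : Finset (MvPolynomial (Fin q) R))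
    (φ : R →+* (∀ j, K j)) (A : (Fin q → L) → Prop) (B : ∀ j, (Fin q → K j) → Prop)
    (h : ∀ t : Fin q → ∀ j, K j, A (fun a => π (t a)) ↔ ∀ᶠ j in U, B j fun a => t a j) :
    (∀ t ∈ Par E (π.comp φ), A t) ↔
      ∀ᶠ j in U, ∀ t ∈ Par E ((Pi.evalRingHom K j).comp φ), B j t := by
  classical
  constructor
  · intro hA
    by_contra hcon
    rw [← Ultrafilter.eventually_not] at hcon
    have h1 : ∀ᶠ j in U, ∃ t : Fin q → K j, t ∈ Par E ((Pi.evalRingHom K j).comp φ) ∧ ¬ B j t := by
      filter_upwards [hcon] with j hj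
      push Not at hj
      obtain ⟨t, ht, hB⟩ := hj
      exact ⟨t, ht, hB⟩
    obtain ⟨t, ht⟩ := eventually_choose h1
    have h2 := (par_lim hπ E φ fun a j => t j a).mpr (ht.mono fun j hj => hj.1)
    have h3 := (h fun a j => t j a).mp (hA _ h2)
    obtain ⟨j, hj1, hj2⟩ := (h3.and ht).exists
    exact hj2.2 hj1
  · intro hB t ht
    choose s hs using fun a => hπ.surj (t a)
    have hts : t = fun a => π (s a) := funext fun a => (hs a).symm
    rw [hts] at ht ⊢
    rw [par_lim hπ] at ht
    rw [h]
    filter_upwards [hB, ht] with j hj1 hj2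
    exact hj1 _ hj2

theorem bdd_lim (hπ : IsUltra U π) (φ : R →+* (∀ j, K j)) (c : ℕ) :
    Bdd Φ (π.comp φ) c ↔ ∀ᶠ j in U, Bdd Φ ((Pi.evalRingHom K j).comp φ) c :=
  forall_lim hπ Φ.E φ _ _ (rat_lim Φ hπ φ c)

theorem mem_lim (hπ : IsUltra U π) (φ : R →+* (∀ j, K j)) (S : Finset (MvPolynomial (Fin (r + 1)) R))
    (f : Fin (n + 1) → Fin (r + 1) → MvPolynomial (Fin q) R) (t : Fin q → ∀ j, K j) (i : Fin (n + 1)) :
    val (π.comp φ) f (fun a => π (t a)) i ∈ Cone S (π.comp φ) ↔
      ∀ᶠ j in U, val ((Pi.evalRingHom K j).comp φ) f (fun a => t a j) i ∈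
        Cone S ((Pi.evalRingHom K j).comp φ) := by
  rw [val_pi]
  refine (cone_lim hπ S φ fun b => eval t (map φ (f i b))).trans ?_
  refine eventually_congr (Eventually.of_forall fun j => ?_)
  rw [val_apply]

theorem good_lim (hπ : IsUltra U π) (φ : R →+* (∀ j, K j)) :
    Good Φ (π.comp φ) ↔ ∀ᶠ j in U, Good Φ ((Pi.evalRingHom K j).comp φ) := by
  refine forall_lim hπ Φ.E φ _ _ fun t => ?_
  rw [eventually_all]
  refine forall_congr' fun i => ?_
  rw [mem_lim hπ, mem_lim hπ, ← eventually_and]

end Los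

end Pool.Agent.H837.QB
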