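import Pool.Agent.H837.QB.Fam

/-!
# Complexities of families over the algebraic numbers, the complex numbers and of the reductions
-/

set_option autoImplicit false

namespace Pool.Agent.H837.QB

open MvPolynomial Pool.Agent.H837.UF
open Filter hiding map

section Cplx

variable {K : Type} [Field K] {τ : Type} [Fintype τ]

/-- The minimal complexity of a rational equivalence between the zero-cycles `∑ [x i]` and `∑ [y i]`,
`∞` if there is none. -/
noncomputable def cplx (V : Set (τ → K)) {n : ℕ} (x y : Fin n → τ → K) : ℕ∞ :=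
  ⨅ (c : ℕ) (_ : RatEq V c x y), (c : ℕ∞)

theorem cplx_le {V : Set (τ → K)} (hV : V.Nonempty) {n : ℕ} {x y : Fin n → τ → K} {c : ℕ} :
    cplx V x y ≤ c ↔ RatEq V c x y := by
  constructor
  · intro h
    by_contra hcon
    have h1 : ((c + 1 : ℕ) : ℕ∞) ≤ cplx V x y := by
      refine le_iInf₂ fun d hd => ?_
      rw [Nat.cast_le]
      by_contra hlt
      exact hcon (hd.mono hV (by omega))
    have h2 := h1.trans h
    rw [Nat.cast_le] at h2
    omega
  · intro h
    exact iInf₂_le c h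

theorem cplx_ne_top {V : Set (τ → K)} {n : ℕ} {x y : Fin n → τ → K} :
    cplx V x y ≠ ⊤ ↔ ∃ c, RatEq V c x y := by
  constructor
  · intro h
    by_contra hcon
    push Not at hcon
    apply h
    refine iInf_eq_top.mpr fun c => iInf_eq_top.mpr fun hc => absurd hc (hcon c)
  · rintro ⟨c, hc⟩
    exact ne_top_of_le_ne_top (ENat.natCast_ne_top c) (iInf₂_le c hc)

end Cplx

theorem enat_le {a b : ℕ∞} (h : ∀ d : ℕ, b ≤ d → a ≤ d) : a ≤ b := by
  induction b with
  | top => exact le_top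
  | coe d => exact h d le_rfl

theorem min_le {a b : ℕ∞} {c : ℕ} (h : ∀ d : ℕ, d < c → b ≤ d → a ≤ d) : min a c ≤ min b c := by
  rcases le_or_gt (c : ℕ∞) b with hb | hb
  · rw [min_eq_right hb]
    exact min_le_right _ _
  · obtain ⟨d, rfl⟩ := ENat.ne_top_iff_exists.mp (ne_top_of_lt hb)
    rw [Nat.cast_lt] at hb
    refine le_min ?_ (min_le_right _ _)
    exact (min_le_left _ _).trans (h d hb le_rfl)

variable {R : Type} [CommRing R] {r q n : ℕ} (Φ : Family R r q n)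

/-- The supremum of the minimal complexities of rational equivalences between the zero-cycles
`∑ [f i (t)]` and `∑ [g i (t)]` for the points `t` of the parameter variety. -/
noncomputable def Family.complexity {K : Type} [Field K] (φ : R →+* K) : ℕ∞ :=
  ⨆ t ∈ Par Φ.E φ, cplx (Cone Φ.S φ) (val φ Φ.f t) (val φ Φ.g t)

theorem complexity_le {K : Type} [Field K] {φ : R →+* K} (h : Good Φ φ) {c : ℕ} :
    Φ.complexity φ ≤ c ↔ Bdd Φ φ c := by
  rw [Family.complexity, iSup₂_le_iff]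
  exact forall₂_congr fun t ht => cplx_le ⟨_, (h t ht 0).1⟩

theorem complexity_ne_top {K : Type} [Field K] {φ : R →+* K} (h : Good Φ φ) :
    Φ.complexity φ ≠ ⊤ ↔ ∃ c, Bdd Φ φ c := by
  constructor
  · intro h1
    obtain ⟨c, hc⟩ := ENat.ne_top_iff_exists.mp h1
    exact ⟨c, (complexity_le Φ h).mp hc.symm.le⟩
  · rintro ⟨c, hc⟩
    exact ne_top_of_le_ne_top (ENat.natCast_ne_top c) ((complexity_le Φ h).mpr hc)

/-- The property `Q` holds for all homomorphisms `φ` from `R` to the algebraic closures of the fields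
with `p` elements, `p` a prime number, with `p₀ ≤ p` and `φ h ≠ 0`, for a number `p₀` and a nonzero
element `h` of `R`. -/
def AlmostAll (R : Type) [CommRing R]
    (Q : ∀ (p : ℕ) [Fact p.Prime], (R →+* AlgebraicClosure (ZMod p)) → Prop) : Prop :=
  ∃ (h : R) (p₀ : ℕ), h ≠ 0 ∧ ∀ (p : ℕ) [Fact p.Prime], p₀ ≤ p →
    ∀ φ : R →+* AlgebraicClosure (ZMod p), φ h ≠ 0 → Q p φ

theorem AlmostAll.and [IsDomain R]
    {Q Q' : ∀ (p : ℕ) [Fact p.Prime], (R →+* AlgebraicClosure (ZMod p)) → Prop}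
    (h : AlmostAll R Q) (h' : AlmostAll R Q') : AlmostAll R fun p _ φ => Q p φ ∧ Q' p φ := by
  obtain ⟨a, p₀, ha, hQ⟩ := h
  obtain ⟨b, q₀, hb, hQ'⟩ := h'
  refine ⟨a * b, max p₀ q₀, mul_ne_zero ha hb, fun p _ hp φ hφ => ?_⟩
  rw [map_mul] at hφ
  exact ⟨hQ p ((le_max_left _ _).trans hp) φ (left_ne_zero_of_mul hφ),
    hQ' p ((le_max_right _ _).trans hp) φ (right_ne_zero_of_mul hφ)⟩

theorem AlmostAll.mono {Q Q' : ∀ (p : ℕ) [Fact p.Prime], (R →+* AlgebraicClosure (ZMod p)) → Prop}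
    (h : AlmostAll R Q) (hQ : ∀ (p : ℕ) [Fact p.Prime] (φ : R →+* AlgebraicClosure (ZMod p)),
      Q p φ → Q' p φ) : AlmostAll R Q' := by
  obtain ⟨a, p₀, ha, h1⟩ := h
  exact ⟨a, p₀, ha, fun p _ hp φ hφ => hQ p φ (h1 p hp φ hφ)⟩

theorem AlmostAll.forall_lt [IsDomain R]
    {Q : ∀ (p : ℕ) [Fact p.Prime], (R →+* AlgebraicClosure (ZMod p)) → ℕ → Prop}
    (h : ∀ d, AlmostAll R fun p _ φ => Q p φ d) (c : ℕ) :
    AlmostAll R fun p _ φ => ∀ d < c, Q p φ d := by
  induction c with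
  | zero => exact ⟨1, 0, one_ne_zero, fun p _ _ φ _ d hd => absurd hd (Nat.not_lt_zero d)⟩
  | succ c ih =>
    refine (ih.and (h c)).mono fun p _ φ hφ d hd => ?_
    rcases Nat.lt_succ_iff_lt_or_eq.mp hd with h1 | rfl
    · exact hφ.1 d h1
    · exact hφ.2

/-- The transfer principle for properties which satisfy the theorem of Łoś. -/
theorem almostAll_of [Algebra.FiniteType ℤ R] (ι : R →+* ℂ) (hι : Function.Injective ι) (Q₀ : Prop)
    (Q : ∀ (p : ℕ) [Fact p.Prime], (R →+* AlgebraicClosure (ZMod p)) → Prop)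
    (h : ∀ (p : ℕ → ℕ) [∀ j, Fact (p j).Prime] (φ : ∀ j, R →+* AlgebraicClosure (ZMod (p j)))
      (π : (∀ j, AlgebraicClosure (ZMod (p j))) →+* ℂ), IsUltra (hyperfilter ℕ) π →
      π.comp (RingHom.pi φ) = ι →
      (Q₀ ↔ ∀ᶠ j in (hyperfilter ℕ : Filter ℕ), Q (p j) (φ j))) :
    Q₀ ↔ AlmostAll R Q := by
  have h1 := (transfer ι hι Q₀ (fun p _ φ _ => Q p φ) (by
    intro p _ φ π hπ hc hno hQ
    obtain ⟨j, hj⟩ := ((h p φ π hπ hc).mp hQ).exists
    exact hno j hj) (by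
    intro p _ φ π hπ hc _ hall
    exact (h p φ π hπ hc).mpr (Eventually.of_forall hall))).out 0 1
  rw [h1]
  constructor
  · rintro ⟨a, -, p₀, ha, hQ⟩
    exact ⟨a, p₀, ha, hQ⟩
  · rintro ⟨a, p₀, ha, hQ⟩
    exact ⟨a, 0, p₀, ha, hQ⟩

theorem almostAll_iff [Algebra.FiniteType ℤ R] [IsDomain R] (ι : R →+* ℂ)
    (hι : Function.Injective ι) (Q₀ : Prop)
    (Q : ∀ (p : ℕ) [Fact p.Prime], (R →+* AlgebraicClosure (ZMod p)) → Prop)
    (h : ∀ (p : ℕ → ℕ) [∀ j, Fact (p j).Prime] (φ : ∀ j, R →+* AlgebraicClosure (ZMod (p j)))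
      (π : (∀ j, AlgebraicClosure (ZMod (p j))) →+* ℂ), IsUltra (hyperfilter ℕ) π →
      π.comp (RingHom.pi φ) = ι →
      (Q₀ ↔ ∀ᶠ j in (hyperfilter ℕ : Filter ℕ), Q (p j) (φ j))) :
    AlmostAll R fun p _ φ => Q p φ ↔ Q₀ := by
  by_cases hQ : Q₀
  · exact ((almostAll_of ι hι Q₀ Q h).mp hQ).mono fun p _ φ hφ => ⟨fun _ => hQ, fun _ => hφ⟩
  · have h1 := almostAll_of ι hι (¬ Q₀) (fun p _ φ => ¬ Q p φ) (by
      intro p _ φ π hπ hc
      rw [h p φ π hπ hc, Ultrafilter.eventually_not])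
    exact (h1.mp hQ).mono fun p _ φ hφ => ⟨fun h2 => absurd h2 hφ, fun h2 => absurd h2 hQ⟩

theorem bdd_almost [Algebra.FiniteType ℤ R] [IsDomain R] (ι : R →+* ℂ)
    (hι : Function.Injective ι) (c : ℕ) : AlmostAll R fun p _ φ => Bdd Φ φ c ↔ Bdd Φ ι c := by
  refine almostAll_iff ι hι _ (fun p _ φ => Bdd Φ φ c) ?_
  intro p _ φ π hπ hc
  rw [← hc]
  exact bdd_lim Φ hπ (RingHom.pi φ) c

theorem good_almost [Algebra.FiniteType ℤ R] [IsDomain R] {ι : R →+* ℂ}
    (hι : Function.Injective ι) (h : Good Φ ι) : AlmostAll R fun p _ φ => Good Φ φ := by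
  refine (almostAll_of ι hι _ (fun p _ φ => Good Φ φ) ?_).mp h
  intro p _ φ π hπ hc
  rw [← hc]
  exact good_lim Φ hπ (RingHom.pi φ)

/-- **The complexities of the reductions converge to the complexity.** -/
theorem complexity_reductions [Algebra.FiniteType ℤ R] [IsDomain R] {ι : R →+* ℂ}
    (hι : Function.Injective ι) (h : Good Φ ι) (c : ℕ) :
    AlmostAll R fun _ _ φ => min (Φ.complexity φ) c = min (Φ.complexity ι) c := by
  refine ((AlmostAll.forall_lt (bdd_almost Φ ι hι) c).and (good_almost Φ hι h)).mono ?_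
  rintro p _ φ ⟨h1, h2⟩
  refine le_antisymm (min_le fun d hd hb => ?_) (min_le fun d hd hb => ?_)
  · rw [complexity_le Φ h2, h1 d hd, ← complexity_le Φ h]
    exact hb
  · rw [complexity_le Φ h, ← h1 d hd, ← complexity_le Φ h2]
    exact hb

/-! ### The complex numbers as an ultrapower of the algebraic numbers -/

theorem exists_power₀ (e : AlgebraicClosure ℚ →+* ℂ) : ∃ π : (ℕ → AlgebraicClosure ℚ) →+* ℂ,
    IsUltra (hyperfilter ℕ) π ∧ π.comp (RingHom.pi fun _ => RingHom.id (AlgebraicClosure ℚ)) = e := by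
  have := countable_qbar
  obtain ⟨π, h1, h2⟩ := exists_power (ι := RingHom.id (AlgebraicClosure ℚ)) (fun x y h => h) e
  exact ⟨π, h1, h2.trans (RingHom.comp_id e)⟩

theorem comp_power {e : AlgebraicClosure ℚ →+* ℂ} {π : (ℕ → AlgebraicClosure ℚ) →+* ℂ}
    (h : π.comp (RingHom.pi fun _ => RingHom.id (AlgebraicClosure ℚ)) = e)
    (ι : R →+* AlgebraicClosure ℚ) : π.comp (RingHom.pi fun _ => ι) = e.comp ι := by
  rw [← h]
  rfl

theorem bdd_power (ι : R →+* AlgebraicClosure ℚ) (e : AlgebraicClosure ℚ →+* ℂ) (c : ℕ) :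
    Bdd Φ (e.comp ι) c ↔ Bdd Φ ι c := by
  obtain ⟨π, hπ, h0⟩ := exists_power₀ e
  rw [← comp_power h0 ι, bdd_lim Φ hπ]
  constructor
  · intro h
    obtain ⟨j, hj⟩ := h.exists
    exact hj
  · intro h
    exact Eventually.of_forall fun j => h

theorem good_power (ι : R →+* AlgebraicClosure ℚ) (e : AlgebraicClosure ℚ →+* ℂ) :
    Good Φ (e.comp ι) ↔ Good Φ ι := by
  obtain ⟨π, hπ, h0⟩ := exists_power₀ e
  rw [← comp_power h0 ι, good_lim Φ hπ]
  constructor
  · intro h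
    obtain ⟨j, hj⟩ := h.exists
    exact hj
  · intro h
    exact Eventually.of_forall fun j => h

theorem complexity_power (ι : R →+* AlgebraicClosure ℚ) (e : AlgebraicClosure ℚ →+* ℂ)
    (h : Good Φ ι) : Φ.complexity (e.comp ι) = Φ.complexity ι := by
  have h' := (good_power Φ ι e).mpr h
  refine le_antisymm (enat_le fun d hd => ?_) (enat_le fun d hd => ?_)
  · rw [complexity_le Φ h', bdd_power, ← complexity_le Φ h]
    exact hd
  · rw [complexity_le Φ h, ← bdd_power Φ ι e, ← complexity_le Φ h']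
    exact hd

/-- If all the zero-cycles are rationally equivalent over the complex numbers then the complexities over
the algebraic numbers are bounded. -/
theorem bdd_of_forall (ι : R →+* AlgebraicClosure ℚ) (e : AlgebraicClosure ℚ →+* ℂ) (h : Good Φ ι)
    (hs : ∀ t ∈ Par Φ.E (e.comp ι),
      ∃ c, RatEq (Cone Φ.S (e.comp ι)) c (val (e.comp ι) Φ.f t) (val (e.comp ι) Φ.g t)) :
    ∃ c, Bdd Φ ι c := by
  obtain ⟨π, hπ, h0⟩ := exists_power₀ e
  by_contra hcon
  push Not at hcon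
  have h1 : ∀ j : ℕ, ∃ t ∈ Par Φ.E ι, ¬ RatEq (Cone Φ.S ι) j (val ι Φ.f t) (val ι Φ.g t) := by
    intro j
    have := hcon j
    unfold Bdd at this
    push Not at this
    exact this
  choose t ht hno using h1
  rw [← comp_power h0 ι] at hs
  obtain ⟨c, hc⟩ := hs (fun a => π fun j => t j a)
    ((par_lim hπ Φ.E _ fun a j => t j a).mpr (Eventually.of_forall fun j => ht j))
  have h2 := (rat_lim Φ hπ _ c fun a j => t j a).mp hc
  have h3 : ∀ᶠ j in (hyperfilter ℕ : Filter ℕ), c ≤ j :=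
    Nat.hyperfilter_le_atTop (eventually_ge_atTop c)
  obtain ⟨j, hj1, hj2⟩ := (h2.and h3).exists
  exact hno j (RatEq.mono hj1 ⟨_, (h _ (ht j) 0).1⟩ hj2)

end Pool.Agent.H837.QB
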