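import Pool.Agent.H837.QB.Fam2

/-!
# Bounded complexity on a dense set of algebraic points
-/

set_option autoImplicit false

namespace Pool.Agent.H837.QB

open MvPolynomial Pool.Agent.H837.UF
open Filter hiding map

section General

variable {K : Type} [Field K] {τ : Type} [Fintype τ]

theorem same_iff_ratSub {V : Set (τ → K)} {n : ℕ} {x y : Fin n → τ → K} :
    Same V x y ↔ ∃ (hx : ∀ i, x i ∈ V) (hy : ∀ i, y i ∈ V),
      ∑ i, FreeAbelianGroup.of (⟨x i, hx i⟩ : V) - ∑ i, FreeAbelianGroup.of (⟨y i, hy i⟩ : V) ∈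
        Pool.Agent.Y148.OD.ratSub (Pool.Agent.Y148.OD.vlin V) := by
  rw [← closure_eq]
  constructor
  · rintro ⟨hx, hy, h⟩
    exact ⟨hx, hy, (QuotientAddGroup.eq_iff_sub_mem).mp h⟩
  · rintro ⟨hx, hy, h⟩
    exact ⟨hx, hy, (QuotientAddGroup.eq_iff_sub_mem).mpr h⟩

end General

variable {R : Type} [CommRing R] {r q n : ℕ}

theorem cone_smul {K : Type} [Field K] {S : Finset (MvPolynomial (Fin (r + 1)) R)}
    (hS : ∀ P ∈ S, ∃ d : ℕ, P.IsHomogeneous d) (φ : R →+* K) (c : K) (v : Fin (r + 1) → K)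
    (hc : c ≠ 0) (hv : v ∈ Cone S φ) : c • v ∈ Cone S φ := by
  refine ⟨smul_ne_zero hc hv.1, fun P hP => ?_⟩
  obtain ⟨d, hd⟩ := hS P hP
  have h2 : eval (c • v) (map φ P) = c ^ d * eval v (map φ P) := by
    have h3 := (hd.map φ)
    rw [eval_eq', eval_eq', Finset.mul_sum]
    refine Finset.sum_congr rfl fun m hm => ?_
    have h4 : ∏ i, (c • v) i ^ m i = c ^ d * ∏ i, v i ^ m i := by
      have h5 : m.degree = d := by
        rw [← h3 (mem_support_iff.mp hm)]
        exact DFunLike.congr_fun Finsupp.degree_eq_weight_one m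
      rw [← h5, Finsupp.degree_eq_sum, ← Finset.prod_pow_eq_pow_sum, ← Finset.prod_mul_distrib]
      refine Finset.prod_congr rfl fun i _ => ?_
      simp [mul_pow]
    rw [h4]
    ring
  rw [h2, hv.2 P hP, mul_zero]

/-- Rational equivalence is stable under specialisation over the algebraic numbers. -/
theorem same_special {S : Finset (MvPolynomial (Fin (r + 1)) R)}
    (hS : ∀ P ∈ S, ∃ d : ℕ, P.IsHomogeneous d) (ι : R →+* AlgebraicClosure ℚ)
    (e : AlgebraicClosure ℚ →+* ℂ) {x y x' y' : Fin n → Fin (r + 1) → ℂ}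
    (h : Same (Cone S (e.comp ι)) x y) (hx' : ∀ i, x' i ≠ 0) (hy' : ∀ i, y' i ≠ 0)
    (hP : ∀ P : MvPolynomial ((Fin n ⊕ Fin n) × Fin (r + 1)) (AlgebraicClosure ℚ),
      eval (fun p => Sum.elim x y p.1 p.2) (map e P) = 0 →
      eval (fun p => Sum.elim x' y' p.1 p.2) (map e P) = 0) :
    Same (Cone S (e.comp ι)) x' y' := by
  have hunc := Pool.Agent.Y148.OD.uncountable_complex
  rw [same_iff_ratSub] at h ⊢
  obtain ⟨hx, hy, h⟩ := h
  have hcQ := countable_qbar
  have hsurj := e.rangeRestrictField_bijective.surjective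
  have hcount : Countable e.fieldRange := hsurj.countable
  have hmap : ∀ P : MvPolynomial ((Fin n ⊕ Fin n) × Fin (r + 1)) e.fieldRange,
      ∃ P' : MvPolynomial ((Fin n ⊕ Fin n) × Fin (r + 1)) (AlgebraicClosure ℚ),
        map e.rangeRestrictField P' = P := fun P => map_surjective _ hsurj P
  have heval : ∀ {σ : Type} (v : σ → ℂ) (P' : MvPolynomial σ (AlgebraicClosure ℚ)),
      aeval v (map e.rangeRestrictField P') = eval v (map e P') := by
    intro σ v P'
    have h1 : (algebraMap e.fieldRange ℂ).comp e.rangeRestrictField = e := RingHom.ext fun _ => rfl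
    rw [aeval_def, eval₂_map, h1, eval_map]
  exact Pool.Agent.Y148.OD.stmStab ℂ (Fin (r + 1)) (Cone S (e.comp ι)) e.fieldRange hcount
    ⟨{P | ∃ Q ∈ S, P = map e.rangeRestrictField (map ι Q)}, fun v => by
      constructor
      · rintro ⟨h0, h1⟩
        refine ⟨h0, ?_⟩
        rintro P ⟨Q, hQ, rfl⟩
        rw [heval, MvPolynomial.map_map]
        exact h1 Q hQ
      · rintro ⟨h0, h1⟩
        refine ⟨h0, fun Q hQ => ?_⟩
        have h2 := h1 _ ⟨Q, hQ, rfl⟩
        rw [heval, MvPolynomial.map_map] at h2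
        exact h2⟩ (cone_smul hS _) n (fun i => ⟨x i, hx i⟩) (fun i => ⟨y i, hy i⟩) x' y' h hx' hy' (by
        intro P h0
        obtain ⟨P', rfl⟩ := hmap P
        rw [heval] at h0 ⊢
        exact hP P' h0)

theorem bad_prod {E : Finset (MvPolynomial (Fin q) R)} {ι : R →+* AlgebraicClosure ℚ}
    (hE : ∀ P Q : MvPolynomial (Fin q) (AlgebraicClosure ℚ),
      (∀ t ∈ Par E ι, eval t P * eval t Q = 0) →
        (∀ t ∈ Par E ι, eval t P = 0) ∨ ∀ t ∈ Par E ι, eval t Q = 0)
    (hne : (Par E ι).Nonempty) (P : ℕ → MvPolynomial (Fin q) (AlgebraicClosure ℚ))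
    (hP : ∀ j, ¬ ∀ t ∈ Par E ι, eval t (P j) = 0) (j : ℕ) :
    ¬ ∀ t ∈ Par E ι, eval t (∏ i ∈ Finset.range j, P i) = 0 := by
  induction j with
  | zero =>
    intro h
    obtain ⟨t, ht⟩ := hne
    have := h t ht
    rw [Finset.range_zero, Finset.prod_empty, map_one] at this
    exact one_ne_zero this
  | succ j ih =>
    intro h
    rcases hE (∏ i ∈ Finset.range j, P i) (P j) (fun t ht => by
      rw [← map_mul, ← Finset.prod_range_succ]
      exact h t ht) with h1 | h1
    · exact ih h1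
    · exact hP j h1

/-- **Bounded complexity on a dense set of algebraic points of the parameter variety.** -/
theorem same_of_dense (Φ : Family R r q n) (hS : ∀ P ∈ Φ.S, ∃ d : ℕ, P.IsHomogeneous d)
    (ι : R →+* AlgebraicClosure ℚ) (e : AlgebraicClosure ℚ →+* ℂ) (hG : Good Φ ι)
    (hE : ∀ P Q : MvPolynomial (Fin q) (AlgebraicClosure ℚ),
      (∀ t ∈ Par Φ.E ι, eval t P * eval t Q = 0) →
        (∀ t ∈ Par Φ.E ι, eval t P = 0) ∨ ∀ t ∈ Par Φ.E ι, eval t Q = 0)
    {c : ℕ} (hc : ∀ P : MvPolynomial (Fin q) (AlgebraicClosure ℚ),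
      (∀ t ∈ Par Φ.E ι, RatEq (Cone Φ.S ι) c (val ι Φ.f t) (val ι Φ.g t) → eval t P = 0) →
        ∀ t ∈ Par Φ.E ι, eval t P = 0) {t' : Fin q → ℂ} (ht' : t' ∈ Par Φ.E (e.comp ι)) :
    Same (Cone Φ.S (e.comp ι)) (val (e.comp ι) Φ.f t') (val (e.comp ι) Φ.g t') := by
  classical
  obtain ⟨π, hπ, h0⟩ := exists_power₀ e
  have hcQ := countable_qbar
  have hG' := (good_power Φ ι e).mpr hG
  have hlim : ∀ (P : MvPolynomial (Fin q) (AlgebraicClosure ℚ))
      (t : Fin q → ℕ → AlgebraicClosure ℚ), eval (fun a => π (t a)) (map e P) = 0 ↔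
        ∀ᶠ j in (hyperfilter ℕ : Filter ℕ), eval (fun a => t a j) P = 0 := by
    intro P t
    have h1 := eval_lim hπ P (RingHom.pi fun _ => RingHom.id (AlgebraicClosure ℚ)) t
    rw [h0] at h1
    rw [h1]
    refine eventually_congr (Eventually.of_forall fun j => ?_)
    have h2 : (Pi.evalRingHom (fun _ : ℕ => AlgebraicClosure ℚ) j).comp
        (RingHom.pi fun _ => RingHom.id (AlgebraicClosure ℚ)) = RingHom.id _ := RingHom.ext fun _ => rfl
    rw [h2, MvPolynomial.map_id]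
  have hzero : ∀ P : MvPolynomial (Fin q) (AlgebraicClosure ℚ),
      (∀ t ∈ Par Φ.E ι, eval t P = 0) → eval t' (map e P) = 0 := by
    intro P hP
    have h1 := (forall_lim hπ Φ.E (RingHom.pi fun _ => ι) (fun t => eval t (map e P) = 0)
      (fun _ t => eval t P = 0) (hlim P)).mpr (Eventually.of_forall fun j => hP)
    rw [comp_power h0 ι] at h1
    exact h1 t' ht'
  have hne : (Par Φ.E ι).Nonempty := by
    by_contra hcon
    rw [Set.not_nonempty_iff_eq_empty] at hcon
    have := hzero 1 (by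
      rw [hcon]
      intro t ht
      exact absurd ht (Set.notMem_empty t))
    rw [map_one, map_one] at this
    exact one_ne_zero this
  have hne1 : ∃ P : MvPolynomial (Fin q) (AlgebraicClosure ℚ), ¬ ∀ t ∈ Par Φ.E ι, eval t P = 0 := by
    obtain ⟨t, ht⟩ := hne
    refine ⟨1, fun h => ?_⟩
    have := h t ht
    rw [map_one] at this
    exact one_ne_zero this
  have : Nonempty {P : MvPolynomial (Fin q) (AlgebraicClosure ℚ) //
      ¬ ∀ t ∈ Par Φ.E ι, eval t P = 0} := ⟨⟨_, hne1.choose_spec⟩⟩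
  have : Countable (MvPolynomial (Fin q) (AlgebraicClosure ℚ)) := by
    rw [← Cardinal.mk_le_aleph0_iff]
    refine MvPolynomial.cardinalMk_le_max.trans ?_
    simp
  obtain ⟨p, hp⟩ := exists_surjective_nat {P : MvPolynomial (Fin q) (AlgebraicClosure ℚ) //
      ¬ ∀ t ∈ Par Φ.E ι, eval t P = 0}
  have hex : ∀ j : ℕ, ∃ t ∈ Par Φ.E ι, RatEq (Cone Φ.S ι) c (val ι Φ.f t) (val ι Φ.g t) ∧
      eval t (∏ i ∈ Finset.range j, (p i : MvPolynomial (Fin q) (AlgebraicClosure ℚ))) ≠ 0 := by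
    intro j
    have h1 := bad_prod hE hne (fun i => (p i : MvPolynomial (Fin q) (AlgebraicClosure ℚ)))
      (fun i => (p i).2) j
    by_contra hcon
    push Not at hcon
    exact h1 (hc _ fun t ht hr => hcon t ht hr)
  choose t ht hr hnz using hex
  set s : Fin q → ℂ := fun a => π fun j => t j a with hs
  have hsPar : s ∈ Par Φ.E (e.comp ι) := by
    rw [← comp_power h0 ι]
    exact (par_lim hπ Φ.E _ fun a j => t j a).mpr (Eventually.of_forall fun j => ht j)
  have hsSame : Same (Cone Φ.S (e.comp ι)) (val (e.comp ι) Φ.f s) (val (e.comp ι) Φ.g s) := by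
    rw [same_iff (cone_ne_zero Φ.S (e.comp ι)) (fun i => (hG' s hsPar i).1)
      fun i => (hG' s hsPar i).2]
    refine ⟨c, ?_⟩
    rw [← comp_power h0 ι]
    exact (rat_lim Φ hπ _ c fun a j => t j a).mpr (Eventually.of_forall fun j => hr j)
  have hgen : ∀ P : MvPolynomial (Fin q) (AlgebraicClosure ℚ), eval s (map e P) = 0 →
      eval t' (map e P) = 0 := by
    intro P hP
    refine hzero P ?_
    by_contra hcon
    obtain ⟨i, hi⟩ := hp ⟨P, hcon⟩
    have h1 := (hlim P fun a j => t j a).mp hP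
    have h2 : ∀ᶠ j in (hyperfilter ℕ : Filter ℕ), i < j :=
      Nat.hyperfilter_le_atTop (eventually_gt_atTop i)
    obtain ⟨j, hj1, hj2⟩ := (h1.and h2).exists
    apply hnz j
    rw [map_prod]
    refine Finset.prod_eq_zero (Finset.mem_range.mpr hj2) ?_
    rw [hi]
    exact hj1
  refine same_special hS ι e hsSame (fun i => (hG' t' ht' i).1.1) (fun i => (hG' t' ht' i).2.1) ?_
  intro P hP
  set G : MvPolynomial (Fin q) (AlgebraicClosure ℚ) :=
    bind₁ (fun p : (Fin (n + 1) ⊕ Fin (n + 1)) × Fin (r + 1) =>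
      map ι (Sum.elim Φ.f Φ.g p.1 p.2)) P with hGdef
  have hev : ∀ u : Fin q → ℂ, eval u (map e G) =
      eval (fun p : (Fin (n + 1) ⊕ Fin (n + 1)) × Fin (r + 1) =>
        Sum.elim (val (e.comp ι) Φ.f u) (val (e.comp ι) Φ.g u) p.1 p.2) (map e P) := by
    intro u
    rw [eval_map, eval_map]
    have h1 : eval₂Hom e u G = eval₂Hom e (fun p : (Fin (n + 1) ⊕ Fin (n + 1)) × Fin (r + 1) =>
        eval₂Hom e u (map ι (Sum.elim Φ.f Φ.g p.1 p.2))) P := eval₂Hom_bind₁ _ _ _ _
    refine h1.trans ?_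
    show eval₂ e _ P = eval₂ e _ P
    congr 1
    funext p
    obtain ⟨i | i, a⟩ := p
    · show eval₂ e u (map ι (Φ.f i a)) = eval u (map (e.comp ι) (Φ.f i a))
      rw [eval_map, eval₂_map]
    · show eval₂ e u (map ι (Φ.g i a)) = eval u (map (e.comp ι) (Φ.g i a))
      rw [eval_map, eval₂_map]
  rw [← hev]
  rw [← hev] at hP
  exact hgen G hP

end Pool.Agent.H837.QB
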