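import Pool.Agent.H837.QB.Fam3

/-!
# Complexities: the final statements
-/

set_option autoImplicit false

namespace Pool.Agent.H837.QB

open MvPolynomial Pool.Agent.H837.UF
open Filter hiding map

variable {R : Type} [CommRing R] {r q n : ℕ}

/-- `Φ` is a family of pairs of effective zero-cycles of degree `n + 1` on a projective variety over the
algebraic numbers, whose parameter variety is irreducible: the equations in `S` are homogeneous, the
vectors `f i (t)` and `g i (t)` are homogeneous coordinates of points of the projective variety for all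
algebraic points `t` of the parameter variety, and if a product of two polynomials vanishes on the
parameter variety then one of them vanishes on it. -/
structure IsFamily (Φ : Family R r q n) (ι : R →+* AlgebraicClosure ℚ) : Prop where
  homogeneous : ∀ P ∈ Φ.S, ∃ d : ℕ, P.IsHomogeneous d
  mem : ∀ t ∈ Par Φ.E ι, ∀ i, val ι Φ.f t i ∈ Cone Φ.S ι ∧ val ι Φ.g t i ∈ Cone Φ.S ι
  irreducible : ∀ P Q : MvPolynomial (Fin q) (AlgebraicClosure ℚ),
    (∀ t ∈ Par Φ.E ι, eval t P * eval t Q = 0) →
      (∀ t ∈ Par Φ.E ι, eval t P = 0) ∨ ∀ t ∈ Par Φ.E ι, eval t Q = 0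

/-- The algebraic points `t` of the parameter variety such that the minimal complexity of a rational
equivalence between the zero-cycles `∑ [f i (t)]` and `∑ [g i (t)]` is at most `c` are Zariski dense:
all polynomials which vanish at these points vanish on the parameter variety. -/
def Family.Dense (Φ : Family R r q n) (ι : R →+* AlgebraicClosure ℚ) (c : ℕ) : Prop :=
  ∀ P : MvPolynomial (Fin q) (AlgebraicClosure ℚ),
    (∀ t ∈ Par Φ.E ι, cplx (Cone Φ.S ι) (val ι Φ.f t) (val ι Φ.g t) ≤ c → eval t P = 0) →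
      ∀ t ∈ Par Φ.E ι, eval t P = 0

/-- **Families.** -/
theorem families [Algebra.FiniteType ℤ R] (ι : R →+* AlgebraicClosure ℚ)
    (hι : Function.Injective ι) (e : AlgebraicClosure ℚ →+* ℂ) (Φ : Family R r q n)
    (h : IsFamily Φ ι) :
    [∀ t ∈ Par Φ.E (e.comp ι), Same (Cone Φ.S (e.comp ι)) (val (e.comp ι) Φ.f t)
        (val (e.comp ι) Φ.g t),
      Φ.complexity ι ≠ ⊤, ∃ c : ℕ, Φ.Dense ι c].TFAE ∧
    Φ.complexity (e.comp ι) = Φ.complexity ι ∧
    ∀ c : ℕ, AlmostAll R fun _ _ φ => min (Φ.complexity φ) c = min (Φ.complexity ι) c := by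
  have hdom : IsDomain R := hι.isDomain ι
  have hG : Good Φ ι := h.mem
  have hG' := (good_power Φ ι e).mpr hG
  have hle : ∀ {c : ℕ} {t : Fin q → AlgebraicClosure ℚ}, t ∈ Par Φ.E ι →
      (cplx (Cone Φ.S ι) (val ι Φ.f t) (val ι Φ.g t) ≤ c ↔
        RatEq (Cone Φ.S ι) c (val ι Φ.f t) (val ι Φ.g t)) := fun ht => cplx_le ⟨_, (hG _ ht 0).1⟩
  refine ⟨?_, complexity_power Φ ι e hG, fun c => ?_⟩
  · tfae_have 1 → 2 := by
      intro h1
      rw [complexity_ne_top Φ hG]
      refine bdd_of_forall Φ ι e hG fun t ht => ?_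
      exact (same_iff (cone_ne_zero Φ.S (e.comp ι)) (fun i => (hG' t ht i).1)
        fun i => (hG' t ht i).2).mp (h1 t ht)
    tfae_have 2 → 3 := by
      intro h1
      obtain ⟨c, hc⟩ := (complexity_ne_top Φ hG).mp h1
      exact ⟨c, fun P hP t ht => hP t ht ((hle ht).mpr (hc t ht))⟩
    tfae_have 3 → 1 := by
      rintro ⟨c, hc⟩ t ht
      refine same_of_dense Φ h.homogeneous ι e hG h.irreducible (c := c) ?_ ht
      intro P hP
      exact hc P fun t ht h1 => hP t ht ((hle ht).mp h1)
    tfae_finish
  · have h1 := complexity_reductions Φ (ι := e.comp ι) (e.injective.comp hι) hG' c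
    rw [complexity_power Φ ι e hG] at h1
    exact h1

/-- the constant family -/
noncomputable def const (S : Finset (MvPolynomial (Fin (r + 1)) R)) (x y : Fin (n + 1) → Fin (r + 1) → R) :
    Family R r 0 n where
  S := S
  E := ∅
  f := fun i a => C (x i a)
  g := fun i a => C (y i a)

theorem val_const {K : Type} [Field K] (φ : R →+* K) (x : Fin (n + 1) → Fin (r + 1) → R)
    (t : Fin 0 → K) : val φ (fun i a => (C (x i a) : MvPolynomial (Fin 0) R)) t = image φ x := by
  funext i a
  show eval t (map φ (C (x i a))) = φ (x i a)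
  rw [map_C, eval_C]

theorem complexity_const {K : Type} [Field K] (φ : R →+* K)
    (S : Finset (MvPolynomial (Fin (r + 1)) R)) (x y : Fin (n + 1) → Fin (r + 1) → R) :
    (const S x y).complexity φ = cplx (Cone S φ) (image φ x) (image φ y) := by
  have h : ∀ t ∈ Par (const S x y).E φ, cplx (Cone (const S x y).S φ) (val φ (const S x y).f t)
      (val φ (const S x y).g t) = cplx (Cone S φ) (image φ x) (image φ y) := by
    intro t _
    show cplx (Cone S φ) (val φ (fun i a => (C (x i a) : MvPolynomial (Fin 0) R)) t)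
      (val φ (fun i a => (C (y i a) : MvPolynomial (Fin 0) R)) t) = _
    rw [val_const, val_const]
  have hne : (fun _ : Fin 0 => (0 : K)) ∈ Par (const S x y).E φ :=
    fun P hP => absurd hP (Finset.notMem_empty P)
  refine le_antisymm (iSup₂_le fun t ht => (h t ht).le) ?_
  rw [← h _ hne]
  exact le_iSup₂_of_le _ hne le_rfl

/-- **Individual zero-cycles.** -/
theorem cycles [Algebra.FiniteType ℤ R] (ι : R →+* AlgebraicClosure ℚ)
    (hι : Function.Injective ι) (e : AlgebraicClosure ℚ →+* ℂ)
    (S : Finset (MvPolynomial (Fin (r + 1)) R)) (x y : Fin (n + 1) → Fin (r + 1) → R)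
    (hx : ∀ i, image ι x i ∈ Cone S ι) (hy : ∀ i, image ι y i ∈ Cone S ι) :
    [Same (Cone S ι) (image ι x) (image ι y),
      Same (Cone S (e.comp ι)) (image (e.comp ι) x) (image (e.comp ι) y),
      cplx (Cone S ι) (image ι x) (image ι y) ≠ ⊤].TFAE ∧
    (AlmostAll R fun _ _ φ => (Same (Cone S φ) (image φ x) (image φ y) ↔
      cplx (Cone S φ) (image φ x) (image φ y) ≠ ⊤)) ∧
    ∀ c : ℕ, AlmostAll R fun _ _ φ => min (cplx (Cone S φ) (image φ x) (image φ y)) c =
      min (cplx (Cone S ι) (image ι x) (image ι y)) c := by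
  have hdom : IsDomain R := hι.isDomain ι
  have hG : Good (const S x y) ι := by
    intro t _ i
    show val ι (fun i a => (C (x i a) : MvPolynomial (Fin 0) R)) t i ∈ Cone S ι ∧
      val ι (fun i a => (C (y i a) : MvPolynomial (Fin 0) R)) t i ∈ Cone S ι
    rw [val_const, val_const]
    exact ⟨hx i, hy i⟩
  have hG' := (good_power (const S x y) ι e).mpr hG
  have h1 := main S ι hι e x y hx hy
  refine ⟨?_, ?_, fun c => ?_⟩
  · have h12 := h1.out 0 1
    have h13 : Same (Cone S ι) (image ι x) (image ι y) ↔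
        cplx (Cone S ι) (image ι x) (image ι y) ≠ ⊤ := by
      rw [cplx_ne_top, same_iff (cone_ne_zero S ι) hx hy]
    tfae_have 1 ↔ 2 := h12
    tfae_have 1 ↔ 3 := h13
    tfae_finish
  · refine (good_almost (const S x y) (ι := e.comp ι) (e.injective.comp hι) hG').mono ?_
    intro p _ φ hφ
    have h2 := hφ (fun _ => 0) (fun P hP => absurd hP (Finset.notMem_empty P))
    have h3 : ∀ i, image φ x i ∈ Cone S φ ∧ image φ y i ∈ Cone S φ := by
      intro i
      have h4 : val φ (fun i a => (C (x i a) : MvPolynomial (Fin 0) R)) (fun _ => 0) i ∈ Cone S φ ∧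
        val φ (fun i a => (C (y i a) : MvPolynomial (Fin 0) R)) (fun _ => 0) i ∈ Cone S φ := h2 i
      rw [val_const, val_const] at h4
      exact h4
    rw [cplx_ne_top, same_iff (cone_ne_zero S φ) (fun i => (h3 i).1) fun i => (h3 i).2]
  · have h2 := complexity_reductions (const S x y) (ι := e.comp ι) (e.injective.comp hι) hG' c
    rw [complexity_power (const S x y) ι e hG] at h2
    refine h2.mono fun p _ φ hφ => ?_
    rw [complexity_const, complexity_const] at hφ
    exact hφ

end Pool.Agent.H837.QB
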