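import Pool.Agent.H837.QB.Defs
import Pool.Agent.H837.UF.Transfer

/-!
# Zero-cycles over the algebraic numbers and rational equivalences of their reductions
-/

set_option autoImplicit false

namespace Pool.Agent.H837.QB

open MvPolynomial Pool.Agent.H837.UF
open Filter hiding map

section General

variable {K : Type} [Field K] {τ : Type} [Fintype τ]

theorem chow_append {V : Set (τ → K)} {n m : ℕ} (x : Fin n → V)
    (w : Fin m → V) : Pool.Agent.Y148.OD.chow (Pool.Agent.Y148.OD.vlin V) (Fin.append x w) =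
      UF.chow (fun i => (x i : τ → K)) * UF.chow (fun i => (w i : τ → K)) := by
  rw [Pool.Agent.Y148.OD.chow, Fin.prod_univ_add]
  simp only [Fin.append_left, Fin.append_right]
  rfl

theorem chow_ne_zero {n : ℕ} {x : Fin n → τ → K} (h : ∀ i, x i ≠ 0) :
    UF.chow x ≠ 0 :=
  Finset.prod_ne_zero_iff.mpr fun i _ => Pool.Agent.Y737.OD.lin_ne_zero (x i) (h i)

theorem rat_iff [Infinite K] {V : Set (τ → K)} (hV : V.Nonempty) (hV0 : ∀ v ∈ V, v ≠ 0)
    {n : ℕ} (x y : Fin n → V) :
    (∑ i, FreeAbelianGroup.of (x i) - ∑ i, FreeAbelianGroup.of (y i) ∈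
      Pool.Agent.Y148.OD.ratSub (Pool.Agent.Y148.OD.vlin V)) ↔
      ∃ c, RatEq V c (fun i => (x i : τ → K)) (fun i => (y i : τ → K)) := by
  classical
  rw [Pool.Agent.Y914.OD.stmRat K τ V (Pool.Agent.Y148.OD.vlin V)
    (fun p => Pool.Agent.Y737.OD.lin_ne_zero _ (hV0 _ p.2)) n x y]
  constructor
  · rintro ⟨m, w, a, b, ha, hb, F, hF0, hFl, hF⟩
    have h1 : RatEq2 V m F.natDegree (fun i => (x i : τ → K)) (fun i => (y i : τ → K)) := by
      have hs : ∀ s : K, ∃ (a : K) (z : Fin (n + m) → τ → K), (∀ i, z i ∈ V) ∧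
          ∑ i : Fin (F.natDegree + 1), C (s ^ (i : ℕ)) * F.coeff i = C a * UF.chow z := by
        intro s
        obtain ⟨a, z, hz⟩ := hF s
        refine ⟨a, fun i => (z i : τ → K), fun i => (z i).2, ?_⟩
        have h2 : UF.chow (fun i => (z i : τ → K)) =
          Pool.Agent.Y148.OD.chow (Pool.Agent.Y148.OD.vlin V) z := rfl
        rw [h2, ← hz, Polynomial.eval_eq_sum_range, Finset.sum_range]
        refine Finset.sum_congr rfl fun i _ => ?_
        rw [C_pow, mul_comm]
      refine ⟨fun i => (w i : τ → K), a, b, fun i => (w i).2, ha, hb,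
        fun i => F.coeff i, fun i => ?_, ?_, ?_, hs⟩
      · exact coeff_isHomogeneous (G := fun i : Fin (F.natDegree + 1) => F.coeff i) (fun s => by
          obtain ⟨a, z, -, h⟩ := hs s
          exact ⟨a, z, h⟩) i
      · show F.coeff ((0 : Fin (F.natDegree + 1)) : ℕ) = _
        rw [Fin.val_zero, hF0, chow_append]
      · show F.coeff ((Fin.last F.natDegree : Fin (F.natDegree + 1)) : ℕ) = _
        rw [Fin.val_last, Polynomial.coeff_natDegree, hFl, chow_append]
    exact ⟨max m F.natDegree, h1.mono hV (le_max_left _ _) (le_max_right _ _)⟩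
  · rintro ⟨c, w, a, b, hw, ha, hb, G, hGh, hG0, hGl, hG⟩
    set F : Polynomial (MvPolynomial τ K) :=
      ∑ i : Fin (c + 1), Polynomial.C (G i) * Polynomial.X ^ (i : ℕ) with hFdef
    have hcoeff : ∀ i : Fin (c + 1), F.coeff i = G i := by
      intro i
      simp only [hFdef, Polynomial.finsetSum_coeff, Polynomial.coeff_C_mul,
        Polynomial.coeff_X_pow, mul_ite, mul_one, mul_zero]
      rw [Finset.sum_eq_single i]
      · rw [if_pos rfl]
      · intro j _ hj
        rw [if_neg]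
        intro h2
        exact hj (Fin.ext h2.symm)
      · intro h2
        exact absurd (Finset.mem_univ _) h2
    have hcoeff' : ∀ k : ℕ, c < k → F.coeff k = 0 := by
      intro k hk
      simp only [hFdef, Polynomial.finsetSum_coeff, Polynomial.coeff_C_mul,
        Polynomial.coeff_X_pow, mul_ite, mul_one, mul_zero]
      refine Finset.sum_eq_zero fun j _ => ?_
      rw [if_neg]
      have := j.2
      omega
    have hlast : F.coeff c = C b * (UF.chow (fun i => (y i : τ → K)) * UF.chow w) := by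
      have := hcoeff (Fin.last c)
      rw [Fin.val_last] at this
      rw [this, hGl]
    have hne : F.coeff c ≠ 0 := by
      rw [hlast]
      refine mul_ne_zero ?_ (mul_ne_zero (chow_ne_zero fun i => hV0 _ (y i).2)
        (chow_ne_zero fun i => hV0 _ (hw i)))
      rw [Ne, ← C_0, C_inj]
      exact hb
    have hdeg : F.natDegree = c := by
      refine le_antisymm ?_ (Polynomial.le_natDegree_of_ne_zero hne)
      rw [Polynomial.natDegree_le_iff_coeff_eq_zero]
      exact hcoeff'
    refine ⟨c, fun i => ⟨w i, hw i⟩, a, b, ha, hb, F, ?_, ?_, fun s => ?_⟩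
    · have := hcoeff 0
      rw [Fin.val_zero] at this
      rw [this, hG0, chow_append]
    · rw [Polynomial.leadingCoeff, hdeg, hlast, chow_append]
    · obtain ⟨a, z, hz, haz⟩ := hG s
      refine ⟨a, fun i => ⟨z i, hz i⟩, ?_⟩
      have h2 : Pool.Agent.Y148.OD.chow (Pool.Agent.Y148.OD.vlin V) (fun i => (⟨z i, hz i⟩ : V)) =
        UF.chow z := rfl
      rw [h2, ← haz, hFdef, Polynomial.eval_finsetSum]
      refine Finset.sum_congr rfl fun i _ => ?_
      rw [Polynomial.eval_mul, Polynomial.eval_C, Polynomial.eval_pow, Polynomial.eval_X, C_pow,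
        mul_comm]

theorem step_iff {V : Set (τ → K)} {n : ℕ} (x y : Fin n → V) :
    Step V n x y ↔ Pool.Agent.Y148.OD.RatStep (Pool.Agent.Y148.OD.vlin V) n x y := by
  constructor
  · rintro ⟨F, ⟨c, hc, h1⟩, ⟨c', hc', h2⟩, h3⟩
    exact ⟨c, c', hc, hc', F, h1, h2, h3⟩
  · rintro ⟨c, c', hc, hc', F, h1, h2, h3⟩
    exact ⟨F, ⟨c, hc, h1⟩, ⟨c', hc', h2⟩, h3⟩

theorem closure_eq (V : Set (τ → K)) : AddSubgroup.closure {e : FreeAbelianGroup V |
    ∃ (n : ℕ) (x y : Fin n → V), Step V n x y ∧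
      e = ∑ i, FreeAbelianGroup.of (x i) - ∑ i, FreeAbelianGroup.of (y i)} =
    Pool.Agent.Y148.OD.ratSub (Pool.Agent.Y148.OD.vlin V) := by
  rw [Pool.Agent.Y148.OD.ratSub]
  congr 1
  ext e
  simp only [Set.mem_ofPred_eq, step_iff]

/-- Rational equivalence and rational equivalence of bounded complexity. -/
theorem same_iff [Infinite K] {V : Set (τ → K)} (hV0 : ∀ v ∈ V, v ≠ 0)
    {n : ℕ} {x y : Fin (n + 1) → τ → K} (hx : ∀ i, x i ∈ V) (hy : ∀ i, y i ∈ V) :
    Same V x y ↔ ∃ c, RatEq V c x y := by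
  rw [← rat_iff ⟨_, hx 0⟩ hV0 (fun i => ⟨x i, hx i⟩) fun i => ⟨y i, hy i⟩, ← closure_eq]
  constructor
  · rintro ⟨_, _, h⟩
    have h1 := (QuotientAddGroup.eq_iff_sub_mem).mp h
    exact h1
  · intro h
    exact ⟨hx, hy, (QuotientAddGroup.eq_iff_sub_mem).mpr h⟩

end General

variable {R : Type} [CommRing R] {r n : ℕ}

theorem cone_ne_zero {K : Type} [Field K] (S : Finset (MvPolynomial (Fin (r + 1)) R)) (φ : R →+* K) :
    ∀ v ∈ Cone S φ, v ≠ 0 := fun _ hv => hv.1

/-- A point over `R` of the variety stays a point of the variety over a bigger field. -/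
theorem image_mem {K L : Type} [Field K] [Field L] (S : Finset (MvPolynomial (Fin (r + 1)) R))
    (ι : R →+* K) (e : K →+* L) {v : Fin (r + 1) → R} (hv : (fun a => ι (v a)) ∈ Cone S ι) :
    (fun a => e.comp ι (v a)) ∈ Cone S (e.comp ι) := by
  refine ⟨fun h => hv.1 ?_, fun P hP => ?_⟩
  · funext a
    have h1 := congrFun h a
    exact (map_eq_zero e).mp h1
  · have h1 := congrArg e (hv.2 P hP)
    rw [eval_map]
    rw [map_zero, eval_map] at h1
    exact (eval₂_comp_left e ι (fun a => ι (v a)) P).symm.trans h1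

theorem countable_qbar : Countable (AlgebraicClosure ℚ) := by
  have : Algebra.IsAlgebraic ℚ (AlgebraicClosure ℚ) := AlgebraicClosure.isAlgebraic ℚ
  have := Algebra.IsAlgebraic.cardinalMk_le_max ℚ (AlgebraicClosure ℚ)
  rw [← Cardinal.mk_le_aleph0_iff]
  refine this.trans ?_
  simp

/-- The field of complex numbers is an ultrapower of the field of algebraic numbers. -/
theorem exists_power [Countable R] {ι : R →+* AlgebraicClosure ℚ} (hι : Function.Injective ι)
    (e : AlgebraicClosure ℚ →+* ℂ) : ∃ π : (ℕ → AlgebraicClosure ℚ) →+* ℂ,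
      IsUltra (hyperfilter ℕ) π ∧ π.comp (RingHom.pi fun _ => ι) = e.comp ι := by
  have := countable_qbar
  obtain ⟨π, h1, h2, h3⟩ := exists_hom_over (K := fun _ : ℕ => AlgebraicClosure ℚ) (e.comp ι)
    (e.injective.comp hι) (RingHom.pi fun _ => ι) (fun x hx => Eventually.of_forall fun j hj =>
      hx (hι (by rw [map_zero]; exact hj)))
  exact ⟨π, ⟨h1, h2⟩, h3⟩

theorem ratEq_power [Countable R] (S : Finset (MvPolynomial (Fin (r + 1)) R))
    {ι : R →+* AlgebraicClosure ℚ} (hι : Function.Injective ι) (e : AlgebraicClosure ℚ →+* ℂ)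
    (c : ℕ) (x y : Fin (n + 1) → Fin (r + 1) → R) :
    RatEq (Cone S (e.comp ι)) c (image (e.comp ι) x) (image (e.comp ι) y) ↔
      RatEq (Cone S ι) c (image ι x) (image ι y) := by
  obtain ⟨π, hπ, hc⟩ := exists_power hι e
  have h1 := ratEq_iff hπ (cone_lim hπ S (RingHom.pi fun _ => ι)) c
    (fun i a => (RingHom.pi fun _ : ℕ => ι) (x i a)) fun i a => (RingHom.pi fun _ : ℕ => ι) (y i a)
  rw [hc] at h1
  have e1 : (fun i b => π ((RingHom.pi fun _ : ℕ => ι) (x i b))) = image (e.comp ι) x := by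
    rw [← hc]
    rfl
  have e2 : (fun i b => π ((RingHom.pi fun _ : ℕ => ι) (y i b))) = image (e.comp ι) y := by
    rw [← hc]
    rfl
  rw [e1, e2] at h1
  rw [h1]
  constructor
  · intro h
    obtain ⟨j, hj⟩ := h.exists
    exact hj
  · intro h
    exact Eventually.of_forall fun j => h

theorem main [Algebra.FiniteType ℤ R] (S : Finset (MvPolynomial (Fin (r + 1)) R))
    (ι : R →+* AlgebraicClosure ℚ) (hι : Function.Injective ι) (e : AlgebraicClosure ℚ →+* ℂ)
    (x y : Fin (n + 1) → Fin (r + 1) → R) (hx : ∀ i, image ι x i ∈ Cone S ι)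
    (hy : ∀ i, image ι y i ∈ Cone S ι) :
    List.TFAE
      [Same (Cone S ι) (image ι x) (image ι y),
       Same (Cone S (e.comp ι)) (image (e.comp ι) x) (image (e.comp ι) y),
       ∃ (h : R) (c p₀ : ℕ), h ≠ 0 ∧ ∀ (p : ℕ) [Fact p.Prime], p₀ ≤ p →
         ∀ φ : R →+* AlgebraicClosure (ZMod p), φ h ≠ 0 →
           RatEq (Cone S φ) c (image φ x) (image φ y),
       ∃ c : ℕ, ∀ h : R, h ≠ 0 → ∀ p₀ : ℕ, ∃ (p : ℕ) (_ : Fact p.Prime)
         (φ : R →+* AlgebraicClosure (ZMod p)), p₀ ≤ p ∧ φ h ≠ 0 ∧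
           RatEq (Cone S φ) c (image φ x) (image φ y)] := by
  have hRc : Countable R := countable_of_finiteType
  have hx' : ∀ i, image (e.comp ι) x i ∈ Cone S (e.comp ι) := fun i => image_mem S ι e (hx i)
  have hy' : ∀ i, image (e.comp ι) y i ∈ Cone S (e.comp ι) := fun i => image_mem S ι e (hy i)
  rw [same_iff (cone_ne_zero S ι) hx hy, same_iff (cone_ne_zero S (e.comp ι)) hx' hy']
  have h12 : (∃ c, RatEq (Cone S ι) c (image ι x) (image ι y)) ↔
      ∃ c, RatEq (Cone S (e.comp ι)) c (image (e.comp ι) x) (image (e.comp ι) y) :=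
    exists_congr fun c => (ratEq_power S hι e c x y).symm
  have htr := transfer (e.comp ι) (e.injective.comp hι)
    (∃ c, RatEq (Cone S (e.comp ι)) c (image (e.comp ι) x) (image (e.comp ι) y))
    (fun p _ φ c => RatEq (Cone S φ) c (image φ x) (image φ y)) ?_ ?_
  · have h23 := htr.out 0 1
    have h24 := htr.out 0 2
    tfae_have 1 ↔ 2 := h12
    tfae_have 2 ↔ 3 := h23
    tfae_have 2 ↔ 4 := h24
    tfae_finish
  · rintro p _ φ π hπ hc hno ⟨c, h⟩
    have h1 := ratEq_iff hπ (cone_lim hπ S (RingHom.pi φ)) c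
      (fun i a => (RingHom.pi φ) (x i a)) fun i a => (RingHom.pi φ) (y i a)
    have e1 : (fun i b => π ((RingHom.pi φ) (x i b))) = image (e.comp ι) x := by
      rw [← hc]
      rfl
    have e2 : (fun i b => π ((RingHom.pi φ) (y i b))) = image (e.comp ι) y := by
      rw [← hc]
      rfl
    rw [hc, e1, e2] at h1
    have h2 := h1.mp h
    have h3 : ∀ᶠ j in (hyperfilter ℕ : Filter ℕ), (fun a => φ j (x 0 a)) ∈ Cone S (φ j) := by
      refine (cone_lim hπ S (RingHom.pi φ) fun a => (RingHom.pi φ) (x 0 a)).mp ?_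
      rw [hc]
      have e3 : (fun a => π ((RingHom.pi φ) (x 0 a))) = image (e.comp ι) x 0 := by
        rw [← hc]
        rfl
      rw [e3]
      exact hx' 0
    have h4 : ∀ᶠ j in (hyperfilter ℕ : Filter ℕ), c ≤ j :=
      Nat.hyperfilter_le_atTop (eventually_ge_atTop c)
    obtain ⟨j, ⟨hj2, hj3⟩, hj4⟩ := ((h2.and h3).and h4).exists
    exact hno j (RatEq.mono hj2 ⟨_, hj3⟩ hj4)
  · intro p _ φ π hπ hc c h
    have h1 := ratEq_iff hπ (cone_lim hπ S (RingHom.pi φ)) c
      (fun i a => (RingHom.pi φ) (x i a)) fun i a => (RingHom.pi φ) (y i a)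
    have e1 : (fun i b => π ((RingHom.pi φ) (x i b))) = image (e.comp ι) x := by
      rw [← hc]
      rfl
    have e2 : (fun i b => π ((RingHom.pi φ) (y i b))) = image (e.comp ι) y := by
      rw [← hc]
      rfl
    rw [hc, e1, e2] at h1
    exact ⟨c, h1.mpr (Eventually.of_forall h)⟩

end Pool.Agent.H837.QB
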