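import Pool.Agent.H837.QB.Final

/-!
# Algebraic points at bounded complexity
-/

set_option autoImplicit false

namespace Pool.Agent.H837.QB

open MvPolynomial Pool.Agent.H837.UF
open Filter hiding map

/-- The field of the algebraic numbers. -/
abbrev Qb : Type := AlgebraicClosure ℚ

variable {r q n : ℕ}

/-- the identity of the field of algebraic numbers -/
noncomputable abbrev idQ : Qb →+* Qb := RingHom.id Qb

theorem eval_power {e : Qb →+* ℂ} {π : (ℕ → Qb) →+* ℂ} (hπ : IsUltra (hyperfilter ℕ) π)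
    (h0 : π.comp (RingHom.pi fun _ => RingHom.id Qb) = e) {σ : Type} (P : MvPolynomial σ Qb)
    (t : σ → ℕ → Qb) : eval (fun a => π (t a)) (map e P) = 0 ↔
      ∀ᶠ j in (hyperfilter ℕ : Filter ℕ), eval (fun a => t a j) P = 0 := by
  have h1 := eval_lim hπ P (RingHom.pi fun _ => RingHom.id Qb) t
  rw [h0] at h1
  rw [h1]
  refine eventually_congr (Eventually.of_forall fun j => ?_)
  have h2 : (Pi.evalRingHom (fun _ : ℕ => Qb) j).comp
      (RingHom.pi fun _ => RingHom.id Qb) = RingHom.id _ := RingHom.ext fun _ => rfl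
  rw [h2, MvPolynomial.map_id]

/-- The zero-cycles at the point `t`, over the algebraic numbers (`φ` the identity) or the complex
numbers, are given by points of the variety and have a rational equivalence of complexity at most
`b`. -/
def Near (Φ : Family Qb r q n) {K : Type} [Field K] (φ : Qb →+* K) (b : ℕ) (t : Fin q → K) : Prop :=
  t ∈ Par Φ.E φ ∧ RatEq (Cone Φ.S φ) b (val φ Φ.f t) (val φ Φ.g t)

/-- The complex point `t` lies in the Zariski closure, over the algebraic numbers, of the set of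
algebraic points `A`. -/
def InClosure (e : Qb →+* ℂ) (A : Set (Fin q → Qb)) (t : Fin q → ℂ) : Prop :=
  ∀ P : MvPolynomial (Fin q) Qb, (∀ s ∈ A, eval s P = 0) → eval t (map e P) = 0

section

variable (Φ : Family Qb r q n) (e : Qb →+* ℂ)

theorem near_power {e : Qb →+* ℂ} {π : (ℕ → Qb) →+* ℂ} (hπ : IsUltra (hyperfilter ℕ) π)
    (h0 : π.comp (RingHom.pi fun _ => RingHom.id Qb) = e) (b : ℕ) (t : Fin q → ℕ → Qb) :
    Near Φ e b (fun a => π (t a)) ↔
      ∀ᶠ j in (hyperfilter ℕ : Filter ℕ), Near Φ idQ b fun a => t a j := by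
  have h1 := par_lim hπ Φ.E (RingHom.pi fun _ => RingHom.id Qb) t
  have h2 := rat_lim Φ hπ (RingHom.pi fun _ => RingHom.id Qb) b t
  rw [h0] at h1 h2
  unfold Near
  rw [h1, h2, ← eventually_and]
  rfl

/-- **Bounded complexity passes to rational equivalence on the Zariski closure.** -/
theorem same_closure (hS : ∀ P ∈ Φ.S, ∃ d : ℕ, P.IsHomogeneous d) {A : Set (Fin q → Qb)} {b : ℕ}
    (hG : Good Φ idQ) (hA : ∀ t ∈ A, Near Φ idQ b t) {t' : Fin q → ℂ} (ht' : InClosure e A t') :
    t' ∈ Par Φ.E e ∧ Same (Cone Φ.S e) (val e Φ.f t') (val e Φ.g t') := by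
  classical
  obtain ⟨π, hπ, h0⟩ := exists_power₀ e
  have hcQ := countable_qbar
  have hG' : Good Φ e := (good_power Φ idQ e).mpr hG
  have hPar : t' ∈ Par Φ.E e := by
    intro P hP
    refine ht' P fun s hs => ?_
    have h1 := (hA s hs).1 P hP
    rwa [MvPolynomial.map_id] at h1
  refine ⟨hPar, ?_⟩
  have : Countable (MvPolynomial (Fin q) Qb) := by
    rw [← Cardinal.mk_le_aleph0_iff]
    refine MvPolynomial.cardinalMk_le_max.trans ?_
    simp
  have : Nonempty {P : MvPolynomial (Fin q) Qb // eval t' (map e P) ≠ 0} :=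
    ⟨⟨1, by rw [map_one, map_one]; exact one_ne_zero⟩⟩
  obtain ⟨p, hp⟩ := exists_surjective_nat {P : MvPolynomial (Fin q) Qb // eval t' (map e P) ≠ 0}
  have hex : ∀ j : ℕ, ∃ t ∈ A,
      eval t (∏ i ∈ Finset.range j, (p i : MvPolynomial (Fin q) Qb)) ≠ 0 := by
    intro j
    by_contra hcon
    push Not at hcon
    have h1 := ht' _ hcon
    rw [map_prod, map_prod] at h1
    obtain ⟨i, -, hi⟩ := Finset.prod_eq_zero_iff.mp h1
    exact (p i).2 hi
  choose t ht hnz using hex
  set s : Fin q → ℂ := fun a => π fun j => t j a with hs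
  have hnear : Near Φ e b s := (near_power Φ hπ h0 b fun a j => t j a).mpr
    (Eventually.of_forall fun j => hA _ (ht j))
  have hsSame : Same (Cone Φ.S e) (val e Φ.f s) (val e Φ.g s) := by
    rw [same_iff (cone_ne_zero Φ.S e) (fun i => (hG' s hnear.1 i).1)
      fun i => (hG' s hnear.1 i).2]
    exact ⟨b, hnear.2⟩
  have hgen : ∀ P : MvPolynomial (Fin q) Qb, eval s (map e P) = 0 → eval t' (map e P) = 0 := by
    intro P hP
    by_contra hcon
    obtain ⟨i, hi⟩ := hp ⟨P, hcon⟩
    have h1 := (eval_power hπ h0 P fun a j => t j a).mp hP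
    have h2 : ∀ᶠ j in (hyperfilter ℕ : Filter ℕ), i < j :=
      Nat.hyperfilter_le_atTop (eventually_gt_atTop i)
    obtain ⟨j, hj1, hj2⟩ := (h1.and h2).exists
    apply hnz j
    rw [map_prod]
    refine Finset.prod_eq_zero (Finset.mem_range.mpr hj2) ?_
    rw [hi]
    exact hj1
  refine same_special hS idQ e hsSame (fun i => (hG' t' hPar i).1.1)
    (fun i => (hG' t' hPar i).2.1) ?_
  intro P hP
  set G : MvPolynomial (Fin q) Qb :=
    bind₁ (fun p : (Fin (n + 1) ⊕ Fin (n + 1)) × Fin (r + 1) => Sum.elim Φ.f Φ.g p.1 p.2) P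
    with hGdef
  have hev : ∀ u : Fin q → ℂ, eval u (map e G) =
      eval (fun p : (Fin (n + 1) ⊕ Fin (n + 1)) × Fin (r + 1) =>
        Sum.elim (val e Φ.f u) (val e Φ.g u) p.1 p.2) (map e P) := by
    intro u
    rw [eval_map, eval_map]
    have h1 : eval₂Hom e u G = eval₂Hom e (fun p : (Fin (n + 1) ⊕ Fin (n + 1)) × Fin (r + 1) =>
        eval₂Hom e u (Sum.elim Φ.f Φ.g p.1 p.2)) P := eval₂Hom_bind₁ _ _ _ _
    refine h1.trans ?_
    show eval₂ e _ P = eval₂ e _ P
    congr 1
    funext p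
    obtain ⟨i | i, a⟩ := p
    · show eval₂ e u (Φ.f i a) = eval u (map e (Φ.f i a))
      rw [eval_map]
    · show eval₂ e u (Φ.g i a) = eval u (map e (Φ.g i a))
      rw [eval_map]
  rw [← hev]
  rw [← hev] at hP
  exact hgen G hP

end

end Pool.Agent.H837.QB
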