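import Pool.Agent.H837.QB.North

/-!
# Algebraic points at bounded complexity: finiteness
-/

set_option autoImplicit false

namespace Pool.Agent.H837.QB

open MvPolynomial Pool.Agent.H837.UF
open Filter hiding map

variable {r q n : ℕ} (Φ : Family Qb r q n) (e : Qb →+* ℂ)

/-- The points at which the zero-cycles have a rational equivalence of complexity at most `b` lie in
the closure of the algebraic points with this property. -/
theorem inClosure_of_near {b : ℕ} {t : Fin q → ℂ} (h : Near Φ e b t) :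
    InClosure e {s | Near Φ idQ b s} t := by
  obtain ⟨π, hπ, h0⟩ := exists_power₀ e
  choose u hu using fun a => hπ.surj (t a)
  have htu : t = fun a => π (u a) := funext fun a => (hu a).symm
  intro P hP
  rw [htu] at h ⊢
  rw [eval_power hπ h0]
  filter_upwards [(near_power Φ hπ h0 b u).mp h] with j hj
  exact hP _ hj

/-- the vanishing ideal of a set of algebraic points -/
noncomputable def idealOf (A : Set (Fin q → Qb)) : Ideal (MvPolynomial (Fin q) Qb) where
  carrier := {P | ∀ s ∈ A, eval s P = 0}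
  zero_mem' := fun _ _ => map_zero _
  add_mem' := by
    intro P Q hP hQ s hs
    rw [map_add, hP s hs, hQ s hs, add_zero]
  smul_mem' := by
    intro P Q hQ s hs
    rw [smul_eq_mul, map_mul, hQ s hs, mul_zero]

theorem mem_idealOf {A : Set (Fin q → Qb)} {P : MvPolynomial (Fin q) Qb} :
    P ∈ idealOf A ↔ ∀ s ∈ A, eval s P = 0 := Iff.rfl

/-- **The complexities are bounded on the Zariski closure.** -/
theorem near_closure (hS : ∀ P ∈ Φ.S, ∃ d : ℕ, P.IsHomogeneous d) (hG : Good Φ idQ) (b : ℕ) :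
    ∃ b' : ℕ, ∀ t : Fin q → ℂ, InClosure e {s | Near Φ idQ b s} t → Near Φ e b' t := by
  classical
  obtain ⟨π, hπ, h0⟩ := exists_power₀ e
  have hG' : Good Φ e := (good_power Φ idQ e).mpr hG
  obtain ⟨G, hG1⟩ := IsNoetherian.noetherian (idealOf {s | Near Φ idQ b s})
  -- the algebraic points of the closure
  have hmem : ∀ {s : Fin q → Qb}, (∀ P ∈ G, eval s P = 0) →
      ∀ P ∈ idealOf {s | Near Φ idQ b s}, eval s P = 0 := by
    intro s hs P hP
    have h1 : idealOf {s | Near Φ idQ b s} ≤ RingHom.ker (eval s) := by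
      rw [← hG1, Ideal.submodule_span_eq, Ideal.span_le]
      exact fun Q hQ => hs Q hQ
    exact h1 hP
  have hGin : ∀ P ∈ G, P ∈ idealOf {s | Near Φ idQ b s} := by
    intro P hP
    rw [← hG1]
    exact Submodule.subset_span hP
  have hbound : ∃ b' : ℕ, ∀ s : Fin q → Qb, (∀ P ∈ G, eval s P = 0) → Near Φ idQ b' s := by
    by_contra hcon
    push Not at hcon
    choose t ht hno using hcon
    set s : Fin q → ℂ := fun a => π fun j => t j a with hs
    have hcl : InClosure e {s | Near Φ idQ b s} s := by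
      intro P hP
      rw [hs, eval_power hπ h0]
      exact Eventually.of_forall fun j => hmem (ht j) P hP
    obtain ⟨h1, h2⟩ := same_closure Φ e hS hG (fun t ht => ht) hcl
    rw [same_iff (cone_ne_zero Φ.S e) (fun i => (hG' s h1 i).1) fun i => (hG' s h1 i).2] at h2
    obtain ⟨c, hc⟩ := h2
    have h3 := (near_power Φ hπ h0 c fun a j => t j a).mp ⟨h1, hc⟩
    have h4 : ∀ᶠ j in (hyperfilter ℕ : Filter ℕ), c ≤ j :=
      Nat.hyperfilter_le_atTop (eventually_ge_atTop c)
    obtain ⟨j, hj1, hj2⟩ := (h3.and h4).exists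
    exact hno j ⟨hj1.1, RatEq.mono hj1.2 ⟨_, (hG _ hj1.1 0).1⟩ hj2⟩
  obtain ⟨b', hb'⟩ := hbound
  refine ⟨b', fun t ht => ?_⟩
  choose u hu using fun a => hπ.surj (t a)
  have htu : t = fun a => π (u a) := funext fun a => (hu a).symm
  rw [htu] at ht ⊢
  rw [near_power Φ hπ h0]
  have h1 : ∀ᶠ j in (hyperfilter ℕ : Filter ℕ), ∀ P ∈ G, eval (fun a => u a j) P = 0 := by
    rw [Finset.eventually_all]
    intro P hP
    rw [← eval_power hπ h0]
    exact ht P (hGin P hP)
  exact h1.mono fun j hj => hb' _ hj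

/-- The irreducible closed subvariety of affine space given by the prime ideal `𝔭` of polynomials over
the algebraic numbers is contained in the parameter variety, and the zero-cycles are rationally
equivalent at all its complex points. -/
structure ConstantCycle (𝔭 : Ideal (MvPolynomial (Fin q) Qb)) : Prop where
  prime : 𝔭.IsPrime
  same : ∀ t : Fin q → ℂ, (∀ P ∈ 𝔭, eval t (map e P) = 0) →
    t ∈ Par Φ.E e ∧ Same (Cone Φ.S e) (val e Φ.f t) (val e Φ.g t)

theorem ker_prime (s : Fin q → Qb) : (RingHom.ker (eval s : MvPolynomial (Fin q) Qb →+* Qb)).IsPrime :=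
  RingHom.ker_isPrime _

theorem constant_of_minimal (hS : ∀ P ∈ Φ.S, ∃ d : ℕ, P.IsHomogeneous d) (hG : Good Φ idQ) {b : ℕ}
    {𝔭 : Ideal (MvPolynomial (Fin q) Qb)}
    (h : 𝔭 ∈ (idealOf {s | Near Φ idQ b s}).minimalPrimes) : ConstantCycle Φ e 𝔭 where
  prime := h.1.1
  same := fun t ht => same_closure Φ e hS hG (b := b) (A := {s | Near Φ idQ b s})
    (fun s hs => hs) fun P hP => ht P (h.1.2 hP)

theorem exists_minimal {b : ℕ} {s : Fin q → Qb} (h : Near Φ idQ b s) :
    ∃ 𝔭 ∈ (idealOf {s | Near Φ idQ b s}).minimalPrimes,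
      𝔭 ≤ RingHom.ker (eval s : MvPolynomial (Fin q) Qb →+* Qb) := by
  have := ker_prime s
  exact Ideal.exists_minimalPrimes_le fun P hP => hP s h

theorem ker_injective : Function.Injective fun s : Fin q → Qb =>
    RingHom.ker (eval s : MvPolynomial (Fin q) Qb →+* Qb) := by
  intro s s' h
  funext a
  have h1 : (X a - C (s a) : MvPolynomial (Fin q) Qb) ∈
      RingHom.ker (eval s : MvPolynomial (Fin q) Qb →+* Qb) := by
    rw [RingHom.mem_ker, map_sub, eval_X, eval_C, sub_self]
  have h2 : (X a - C (s a) : MvPolynomial (Fin q) Qb) ∈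
      RingHom.ker (eval s' : MvPolynomial (Fin q) Qb →+* Qb) := by
    have h3 : RingHom.ker (eval s : MvPolynomial (Fin q) Qb →+* Qb) =
      RingHom.ker (eval s' : MvPolynomial (Fin q) Qb →+* Qb) := h
    rw [← h3]
    exact h1
  rw [RingHom.mem_ker, map_sub, eval_X, eval_C, sub_eq_zero] at h2
  exact h2.symm

/-- **Northcott property.** -/
theorem northcott (hS : ∀ P ∈ Φ.S, ∃ d : ℕ, P.IsHomogeneous d) (hG : Good Φ idQ) (b : ℕ) :
    {s : Fin q → Qb | Near Φ idQ b s ∧ ¬ ∃ 𝔭 : Ideal (MvPolynomial (Fin q) Qb),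
      ConstantCycle Φ e 𝔭 ∧ ¬ 𝔭.IsMaximal ∧ ∀ P ∈ 𝔭, eval s P = 0}.Finite := by
  have hfin := Ideal.finite_minimalPrimes_of_isNoetherianRing (MvPolynomial (Fin q) Qb)
    (idealOf {s | Near Φ idQ b s})
  refine Set.Finite.of_finite_image (f := fun s : Fin q → Qb =>
    RingHom.ker (eval s : MvPolynomial (Fin q) Qb →+* Qb)) (hfin.subset ?_)
    ker_injective.injOn
  rintro _ ⟨s, ⟨hs, hno⟩, rfl⟩
  obtain ⟨𝔭, h𝔭, hle⟩ := exists_minimal Φ hs
  have hmax : 𝔭.IsMaximal := by
    by_contra hcon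
    exact hno ⟨𝔭, constant_of_minimal Φ e hS hG h𝔭, hcon, fun P hP => hle hP⟩
  have hprime := ker_prime s
  have h1 := hmax.eq_of_le hprime.ne_top hle
  show RingHom.ker (eval s : MvPolynomial (Fin q) Qb →+* Qb) ∈ _
  rw [← h1]
  exact h𝔭

end Pool.Agent.H837.QB
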