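import Pool.Agent.H837.QB.North2

/-!
# Algebraic points at bounded complexity from a given point
-/

set_option autoImplicit false

namespace Pool.Agent.H837.QB

open MvPolynomial Pool.Agent.H837.UF
open Filter hiding map

variable {r q n : ℕ}

/-- `Φ` is a family of pairs of effective zero-cycles of degree `n + 1` on a projective variety over the
algebraic numbers: the equations in `S` are homogeneous, and the vectors `f i (t)` and `g i (t)` are
homogeneous coordinates of points of the projective variety for all algebraic points `t` of the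
parameter variety. -/
structure IsPairFamily (Φ : Family Qb r q n) : Prop where
  homogeneous : ∀ P ∈ Φ.S, ∃ d : ℕ, P.IsHomogeneous d
  mem : ∀ t ∈ Par Φ.E idQ, ∀ i, val idQ Φ.f t i ∈ Cone Φ.S idQ ∧ val idQ Φ.g t i ∈ Cone Φ.S idQ

/-- The points `t` of the parameter variety at which the zero-cycles `∑ [f i (t)]` and `∑ [g i (t)]` have
a rational equivalence of complexity at most `b`. -/
def Family.Level (Φ : Family Qb r q n) {K : Type} [Field K] (φ : Qb →+* K) (b : ℕ) :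
    Set (Fin q → K) :=
  {t | t ∈ Par Φ.E φ ∧ cplx (Cone Φ.S φ) (val φ Φ.f t) (val φ Φ.g t) ≤ b}

theorem mem_level {Φ : Family Qb r q n} {K : Type} [Field K] {φ : Qb →+* K} (hG : Good Φ φ) {b : ℕ}
    {t : Fin q → K} : t ∈ Φ.Level φ b ↔ Near Φ φ b t := by
  constructor
  · rintro ⟨h1, h2⟩
    exact ⟨h1, (cplx_le ⟨_, (hG t h1 0).1⟩).mp h2⟩
  · rintro ⟨h1, h2⟩
    exact ⟨h1, (cplx_le ⟨_, (hG t h1 0).1⟩).mpr h2⟩

/-- **Families.** -/
theorem levels (e : Qb →+* ℂ) (Φ : Family Qb r q n) (h : IsPairFamily Φ) (b : ℕ) :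
    (∃ b' : ℕ, ∀ t : Fin q → ℂ, (t ∈ Φ.Level e b → InClosure e (Φ.Level idQ b) t) ∧
      (InClosure e (Φ.Level idQ b) t → t ∈ Φ.Level e b')) ∧
    (∃ 𝒬 : Set (Ideal (MvPolynomial (Fin q) Qb)), 𝒬.Finite ∧ (∀ 𝔭 ∈ 𝒬, ConstantCycle Φ e 𝔭) ∧
      ∀ s ∈ Φ.Level idQ b, ∃ 𝔭 ∈ 𝒬, ∀ P ∈ 𝔭, eval s P = 0) ∧
    {s ∈ Φ.Level idQ b | ¬ ∃ 𝔭 : Ideal (MvPolynomial (Fin q) Qb),
      ConstantCycle Φ e 𝔭 ∧ ¬ 𝔭.IsMaximal ∧ ∀ P ∈ 𝔭, eval s P = 0}.Finite := by
  have hG : Good Φ idQ := h.mem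
  have hG' : Good Φ e := (good_power Φ idQ e).mpr hG
  have hL : Φ.Level idQ b = {s | Near Φ idQ b s} := Set.ext fun s => mem_level hG
  refine ⟨?_, ?_, ?_⟩
  · obtain ⟨b', hb'⟩ := near_closure Φ e h.homogeneous hG b
    refine ⟨b', fun t => ⟨fun ht => ?_, fun ht => ?_⟩⟩
    · rw [hL]
      exact inClosure_of_near Φ e ((mem_level hG').mp ht)
    · rw [hL] at ht
      exact (mem_level hG').mpr (hb' t ht)
  · refine ⟨(idealOf {s | Near Φ idQ b s}).minimalPrimes,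
      Ideal.finite_minimalPrimes_of_isNoetherianRing _ _, fun 𝔭 h𝔭 =>
        constant_of_minimal Φ e h.homogeneous hG h𝔭, fun s hs => ?_⟩
    obtain ⟨𝔭, h𝔭, hle⟩ := exists_minimal Φ ((mem_level hG).mp hs)
    exact ⟨𝔭, h𝔭, fun P hP => hle hP⟩
  · refine (northcott Φ e h.homogeneous hG b).subset ?_
    rintro s ⟨hs, hno⟩
    exact ⟨(mem_level hG).mp hs, hno⟩

/-! ### Points of a variety -/

open Classical in
/-- the family of the points of the chart `x a = 1` and of the constant point `x₀` -/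
noncomputable def chart (S : Finset (MvPolynomial (Fin (r + 1)) Qb)) (x₀ : Fin (r + 1) → Qb)
    (a : Fin (r + 1)) : Family Qb r (r + 1) 0 where
  S := S
  E := insert (X a - 1) S
  f := fun _ c => X c
  g := fun _ c => C (x₀ c)

theorem mem_par_chart {S : Finset (MvPolynomial (Fin (r + 1)) Qb)} {x₀ : Fin (r + 1) → Qb}
    {a : Fin (r + 1)} {K : Type} [Field K] {φ : Qb →+* K} {t : Fin (r + 1) → K} :
    t ∈ Par (chart S x₀ a).E φ ↔ t a = 1 ∧ t ∈ Cone S φ := by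
  classical
  have h1 : ∀ P : MvPolynomial (Fin (r + 1)) Qb, P ∈ (chart S x₀ a).E ↔ P = X a - 1 ∨ P ∈ S := by
    intro P
    show P ∈ insert (X a - 1) S ↔ _
    exact Finset.mem_insert
  have h2 : eval t (map φ (X a - 1)) = t a - 1 := by
    rw [map_sub, map_X, map_one, map_sub, eval_X, map_one]
  constructor
  · intro h
    have h3 : t a = 1 := by
      have := h _ ((h1 _).mpr (Or.inl rfl))
      rw [h2, sub_eq_zero] at this
      exact this
    refine ⟨h3, fun h0 => ?_, fun P hP => h P ((h1 P).mpr (Or.inr hP))⟩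
    rw [h0] at h3
    exact zero_ne_one h3
  · rintro ⟨h3, h4⟩ P hP
    rcases (h1 P).mp hP with rfl | hP
    · rw [h2, h3, sub_self]
    · exact h4.2 P hP

theorem val_chart_f {S : Finset (MvPolynomial (Fin (r + 1)) Qb)} {x₀ : Fin (r + 1) → Qb}
    {a : Fin (r + 1)} {K : Type} [Field K] (φ : Qb →+* K) (t : Fin (r + 1) → K) :
    val φ (chart S x₀ a).f t = fun _ => t := by
  funext i c
  show eval t (map φ (X c)) = t c
  rw [map_X, eval_X]

theorem val_chart_g {S : Finset (MvPolynomial (Fin (r + 1)) Qb)} {x₀ : Fin (r + 1) → Qb}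
    {a : Fin (r + 1)} {K : Type} [Field K] (φ : Qb →+* K) (t : Fin (r + 1) → K) :
    val φ (chart S x₀ a).g t = fun _ c => φ (x₀ c) := by
  funext i c
  show eval t (map φ (C (x₀ c))) = φ (x₀ c)
  rw [map_C, eval_C]

/-- The minimal complexity of a rational equivalence between the points `x` and `y` of the variety
given by `S`, over the algebraic numbers. -/
noncomputable def dist (S : Finset (MvPolynomial (Fin (r + 1)) Qb)) (x y : Fin (r + 1) → Qb) : ℕ∞ :=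
  cplx (Cone S idQ) (fun _ : Fin 1 => x) fun _ : Fin 1 => y

/-- `𝔭` is a prime ideal of polynomials with algebraic coefficients, all of whose complex zeros `t`
satisfy `t a = 1` and are points of the variety which are rationally equivalent to the point `x₀`: an
irreducible closed subvariety, in the chart `x a = 1`, all of whose complex points are rationally
equivalent to `x₀`. -/
structure IsConstantCycle (S : Finset (MvPolynomial (Fin (r + 1)) Qb)) (e : Qb →+* ℂ)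
    (x₀ : Fin (r + 1) → Qb) (a : Fin (r + 1)) (𝔭 : Ideal (MvPolynomial (Fin (r + 1)) Qb)) : Prop where
  prime : 𝔭.IsPrime
  chart : ∀ t : Fin (r + 1) → ℂ, (∀ P ∈ 𝔭, eval t (map e P) = 0) → t a = 1
  same : ∀ t : Fin (r + 1) → ℂ, (∀ P ∈ 𝔭, eval t (map e P) = 0) →
    Same (Cone S e) (fun _ : Fin 1 => t) fun _ : Fin 1 => fun c => e (x₀ c)

theorem good_chart {S : Finset (MvPolynomial (Fin (r + 1)) Qb)} {x₀ : Fin (r + 1) → Qb}
    (hx₀ : x₀ ∈ Cone S idQ) (a : Fin (r + 1)) : Good (chart S x₀ a) idQ := by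
  intro t ht i
  rw [val_chart_f, val_chart_g]
  exact ⟨(mem_par_chart.mp ht).2, hx₀⟩

theorem isConstantCycle_iff {S : Finset (MvPolynomial (Fin (r + 1)) Qb)} {e : Qb →+* ℂ}
    {x₀ : Fin (r + 1) → Qb} {a : Fin (r + 1)} {𝔭 : Ideal (MvPolynomial (Fin (r + 1)) Qb)} :
    ConstantCycle (chart S x₀ a) e 𝔭 → IsConstantCycle S e x₀ a 𝔭 := by
  intro h
  refine ⟨h.prime, fun t ht => (mem_par_chart.mp (h.same t ht).1).1, fun t ht => ?_⟩
  have h1 := (h.same t ht).2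
  rw [val_chart_f, val_chart_g] at h1
  exact h1

/-- **Points.** -/
theorem points (e : Qb →+* ℂ) {S : Finset (MvPolynomial (Fin (r + 1)) Qb)}
    (hS : ∀ P ∈ S, ∃ d : ℕ, P.IsHomogeneous d) {x₀ : Fin (r + 1) → Qb} (hx₀ : x₀ ∈ Cone S idQ)
    (a : Fin (r + 1)) (b : ℕ) :
    (∃ 𝒬 : Set (Ideal (MvPolynomial (Fin (r + 1)) Qb)), 𝒬.Finite ∧
      (∀ 𝔭 ∈ 𝒬, IsConstantCycle S e x₀ a 𝔭) ∧
      ∀ x ∈ Cone S idQ, x a = 1 → dist S x x₀ ≤ b → ∃ 𝔭 ∈ 𝒬, ∀ P ∈ 𝔭, eval x P = 0) ∧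
    {x ∈ Cone S idQ | x a = 1 ∧ dist S x x₀ ≤ b ∧ ¬ ∃ 𝔭 : Ideal (MvPolynomial (Fin (r + 1)) Qb),
      IsConstantCycle S e x₀ a 𝔭 ∧ ¬ 𝔭.IsMaximal ∧ ∀ P ∈ 𝔭, eval x P = 0}.Finite := by
  have h := (levels e (chart S x₀ a) ⟨hS, good_chart hx₀ a⟩ b).2
  have hmem : ∀ x : Fin (r + 1) → Qb, x ∈ Cone S idQ → x a = 1 → dist S x x₀ ≤ b →
      x ∈ (chart S x₀ a).Level idQ b := by
    intro x h1 h2 h3
    refine ⟨mem_par_chart.mpr ⟨h2, h1⟩, ?_⟩
    rw [val_chart_f, val_chart_g]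
    exact h3
  obtain ⟨⟨𝒬, h1, h2, h3⟩, h4⟩ := h
  refine ⟨⟨𝒬, h1, fun 𝔭 h𝔭 => isConstantCycle_iff (h2 𝔭 h𝔭), fun x hx ha hb =>
    h3 x (hmem x hx ha hb)⟩, h4.subset ?_⟩
  rintro x ⟨hx, ha, hb, hno⟩
  refine ⟨hmem x hx ha hb, fun ⟨𝔭, h5, h6, h7⟩ => hno ⟨𝔭, isConstantCycle_iff h5, h6, h7⟩⟩

end Pool.Agent.H837.QB
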